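import Pool.Agent.Y501.SY.FinalG

/-!
Closed two-forms which are almost nonnegative on the complex lines, and bounded below away from a
closed set with small components: one exact form corrects all of them.
-/

set_option autoImplicit false

open Set Filter Topology MeasureTheory
open scoped Manifold ContDiff

noncomputable section

namespace Pool.Agent.Q130.NF

open Pool.Agent.Y501 Pool.Agent.Y501.SY

section

variable {d : ℕ} {X : Type} [TopologicalSpace X] [ChartedSpace (E d) X]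
  [IsManifold (𝓡 d) ∞ X]

theorem core [CompactSpace X] [T2Space X] {J : End d X} (hJ : IsAlmostComplex J) {K : Set X}
    (hK : IsClosed K)
    (hthin : ∀ z ∈ K, ThinAt2 (d := d) 0 0 J (connectedComponentIn K z) z)
    {τ : Form d X 2} (hτ : IsSmooth τ) (hτt : ∀ x, TamesAt τ J x) :
    ∃ (W : Set X), IsOpen W ∧ K ⊆ W ∧ ∀ δ : ℝ, 0 < δ →
      ∃ (α : Form d X 1) (η : Form d X 2) (ε : ℝ), IsSmooth α ∧ IsSmooth η ∧ IsD α η ∧
        IsClosedForm η ∧ 0 < ε ∧ ∀ σ : Form d X 2,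
          (∀ (x : X) (v : TangentSpace (𝓡 d) x), -ε * τ x ![v, J x v] ≤ σ x ![v, J x v]) →
          (∀ x, x ∉ W → ∀ v : TangentSpace (𝓡 d) x, δ * τ x ![v, J x v] ≤ σ x ![v, J x v]) →
          ∀ x, TamesAt (σ + η) J x := by
  classical
  have hD2 : ∀ z ∈ D2 (0 : Form d X 2) 0 J K, D2 (0 : Form d X 2) 0 J K = K := by
    rintro z ⟨-, v, hv, -⟩
    apply Subset.antisymm
    · exact fun x hx => hx.1
    · intro x hx
      exact ⟨hx, (v : E d), hv, rfl, rfl⟩
  obtain ⟨α, η, hpair, hη⟩ := level2 Pool.Agent.Y484.SY.t_GEN Pool.Agent.Y108.SY.t_PERT2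
    Pool.Agent.Y925.SY.t_PLANAR hJ (σ := 0) (θ := 0) IsSmooth.zero IsSmooth.zero hK (by
      intro z hz
      have h1 := hD2 z hz
      rw [h1]
      exact hthin z hz.1)
  obtain ⟨hα, hηs, hαη, hηc⟩ := hpair.props Pool.Agent.Y484.SY.t_GEN
  -- positivity near `K`
  obtain ⟨c, hc, hcK⟩ := unif hK.isCompact
    (fun c y => ∀ᶠ y' in 𝓝 y, ∀ t : ℝ, |t| ≤ c → TamesAt (η + t • τ) J y')
    (fun ε ε' y hle hp => hp.mono fun y' hy' t ht => hy' t (ht.trans hle))
    (by
      intro x hx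
      obtain ⟨ε, hε, hp⟩ := Pool.Agent.Y455.SY.t_PERT d X J hJ Unit η (fun _ => τ) hηs
        (fun _ => hτ) x (fun v hv => hη x hx v hv rfl rfl)
      refine ⟨ε, hε, eventually_eventually_nhds.2 ?_⟩
      filter_upwards [hp] with y hy t ht
      have := hy (fun _ => t) (fun _ => ht)
      simpa using this)
  -- boundedness everywhere
  obtain ⟨b, hb, hbX⟩ := unif isCompact_univ
    (fun b y => ∀ t : ℝ, |t| ≤ b → TamesAt (τ + t • η) J y)
    (fun ε ε' y hle hp t ht => hp t (ht.trans hle))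
    (by
      intro x _
      obtain ⟨ε, hε, hp⟩ := Pool.Agent.Y455.SY.t_PERT d X J hJ Unit τ (fun _ => η) hτ
        (fun _ => hηs) x (hτt x)
      refine ⟨ε, hε, ?_⟩
      filter_upwards [hp] with y hy t ht
      have := hy (fun _ => t) (fun _ => ht)
      simpa using this)
  refine ⟨{y | ∀ᶠ y' in 𝓝 y, ∀ t : ℝ, |t| ≤ c → TamesAt (η + t • τ) J y'},
    isOpen_setOfPred_eventually_nhds, hcK, fun δ hδ => ?_⟩
  have hs : 0 < δ * b / 2 := by positivity
  refine ⟨(δ * b / 2) • α, (δ * b / 2) • η, δ * b / 2 * c / 2, hα.smul _, hηs.smul _,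
    hαη.smul _, ?_, by positivity, ?_⟩
  · have h1 := hηc.smul (δ * b / 2)
    have h2 : (δ * b / 2) • (0 : Form d X 3) = 0 := smul_zero _
    rw [h2] at h1
    exact h1
  intro σ h1 h2 x v hv
  have e : (σ + (δ * b / 2) • η) x ![v, J x v] =
      σ x ![v, J x v] + δ * b / 2 * η x ![v, J x v] := rfl
  rw [e]
  have hτv := hτt x v hv
  by_cases hx : ∀ᶠ y' in 𝓝 x, ∀ t : ℝ, |t| ≤ c → TamesAt (η + t • τ) J y'
  · have h3 := hx.self_of_nhds (-c) (by rw [abs_neg, abs_of_pos hc]) v hv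
    have e3 : (η + (-c) • τ) x ![v, J x v] = η x ![v, J x v] + (-c) * τ x ![v, J x v] := rfl
    rw [e3] at h3
    have h4 := h1 x v
    nlinarith [mul_pos hs hτv, mul_pos (mul_pos hs hc) hτv]
  · have h3 := hbX x (mem_univ x) b (abs_of_pos hb).le v hv
    have e3 : (τ + b • η) x ![v, J x v] = τ x ![v, J x v] + b * η x ![v, J x v] := rfl
    rw [e3] at h3
    have h4 := h2 x hx v
    nlinarith [mul_pos hδ hτv]

end

end Pool.Agent.Q130.NF
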