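import Pool.Agent.Q130.NF.Core
import Pool.Agent.Y501.SY.BridgeT

/-!
Uniform exact corrections near closed sets with small components: the public statement.
-/

set_option autoImplicit false

open Set Filter Topology MeasureTheory
open scoped Manifold ContDiff

noncomputable section

namespace Pool.Agent.Q130.NF

open Pool.Agent.Y501 Pool.Agent.Y501.SYP

section

attribute [local instance] cs mf

variable {d : ℕ} {X : Type} [TopologicalSpace X] [ChartedSpace (ES d) X]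
  [IsManifold 𝓘(ℝ, ES d) ∞ X]

theorem uniform [CompactSpace X] [T2Space X] (J : End (ES d) X) (hJ : IsAlmostComplex J)
    (K : Set X) (hK : IsClosed K)
    (hsmall : ∀ z ∈ K, SmallAll J (connectedComponentIn K z) z)
    (τ : Form (ES d) X 2) (hτ : IsSmooth τ) (hτt : ∀ x, TamesAt τ J x) :
    ∃ W : Set X, IsOpen W ∧ K ⊆ W ∧ ∀ δ : ℝ, 0 < δ →
      ∃ (α : Form (ES d) X 1) (ρ : Form (ES d) X 2) (ε : ℝ), IsSmooth α ∧ IsSmooth ρ ∧
        IsD α ρ ∧ 0 < ε ∧ ∀ σ : Form (ES d) X 2, IsSmooth σ → IsClosedForm σ →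
          (∀ (x : X) (v : TangentSpace 𝓘(ℝ, ES d) x), -ε * qd τ J x v ≤ qd σ J x v) →
          (∀ x, x ∉ W → ∀ v : TangentSpace 𝓘(ℝ, ES d) x, δ * qd τ J x v ≤ qd σ J x v) →
          IsTamingSymplectic (addF σ ρ) J := by
  obtain ⟨W, hW, hKW, h⟩ := core (d := d) (X := X) (ac_of J hJ) hK
    (fun z hz => smallAll_of hJ (hsmall z hz)) (τ := τ) ((smooth_iff τ).1 hτ) hτt
  refine ⟨W, hW, hKW, fun δ hδ => ?_⟩
  obtain ⟨α, η, ε, h1, h2, h3, h4, h5, h6⟩ := h δ hδ
  refine ⟨α, η, ε, (smooth_iff α).2 h1, (smooth_iff η).2 h2, (isD_iff α η).2 h3, h5,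
    fun σ hσ hσc g1 g2 => ?_⟩
  have e1 := ((smooth_iff σ).1 hσ).add h2
  have e2 := ((closed_iff σ).1 hσc).add h4 ((smooth_iff σ).1 hσ) h2
  rw [add_zero] at e2
  exact symp_of ((smooth_iff _).2 e1) ((closed_iff _).2 e2) (h6 σ g1 g2)

end

end Pool.Agent.Q130.NF
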